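import Mathlib

/-!
# Universally flexible loops: definitions, the center as an abelian group, the central quotient
-/

namespace Pool.Agent.V7H71.UF

/-- A loop on `Q`: multiplication with left and right division and a two-sided identity. -/
structure LoopStr (Q : Type*) where
  mul : Q → Q → Q
  ldiv : Q → Q → Q
  rdiv : Q → Q → Q
  one : Q
  mul_ldiv : ∀ a b, mul a (ldiv a b) = b
  ldiv_mul : ∀ a b, ldiv a (mul a b) = b
  rdiv_mul : ∀ a b, mul (rdiv b a) a = b
  mul_rdiv : ∀ a b, rdiv (mul b a) a = b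
  one_mul : ∀ a, mul one a = a
  mul_one : ∀ a, mul a one = a

namespace LoopStr

variable {Q : Type*} (L : LoopStr Q)

/-- The inverse `x⁻¹` (the right inverse; in a flexible loop it is two-sided). -/
def inv (x : Q) : Q := L.ldiv x L.one

/-- The product `x ∘ y = (x / b) (a \ y)` of the principal isotope of `L` given by `a`, `b`. -/
def iso (a b x y : Q) : Q := L.mul (L.rdiv x b) (L.ldiv a y)

/-- Universally flexible: every principal isotope is flexible. -/
def UF : Prop := ∀ a b x y : Q,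
  L.iso a b x (L.iso a b y x) = L.iso a b (L.iso a b x y) x

/-- `c` lies in the center of the loop. -/
def Central (c : Q) : Prop :=
  (∀ x, L.mul c x = L.mul x c) ∧
  (∀ x y, L.mul (L.mul c x) y = L.mul c (L.mul x y)) ∧
  (∀ x y, L.mul (L.mul x c) y = L.mul x (L.mul c y)) ∧
  (∀ x y, L.mul (L.mul x y) c = L.mul x (L.mul y c))

/-- The middle Bol identity `x ((y z) \ x) = (x / z) (y \ x)`. -/
def MiddleBol : Prop := ∀ x y z : Q,
  L.mul x (L.ldiv (L.mul y z) x) = L.mul (L.rdiv x z) (L.ldiv y x)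

/-- The quotient `Q / Z(Q)` is a middle Bol loop: the two sides of the middle Bol identity always
differ by a central factor. -/
def MiddleBolModCenter : Prop := ∀ x y z : Q, ∃ c, L.Central c ∧
  L.mul x (L.ldiv (L.mul y z) x) = L.mul (L.mul (L.rdiv x z) (L.ldiv y x)) c

/-- The semi-automorphic inverse property. -/
def SAIP : Prop := ∀ x y : Q,
  L.inv (L.mul (L.mul x y) x) = L.mul (L.mul (L.inv x) (L.inv y)) (L.inv x)

variable {L}

theorem lcancel {a x y : Q} (h : L.mul a x = L.mul a y) : x = y := by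
  have := congrArg (L.ldiv a) h
  rwa [L.ldiv_mul, L.ldiv_mul] at this

theorem rcancel {a x y : Q} (h : L.mul x a = L.mul y a) : x = y := by
  have := congrArg (fun t => L.rdiv t a) h
  simpa only [L.mul_rdiv] using this

theorem ldiv_eq {a x y : Q} (h : L.mul a x = y) : L.ldiv a y = x := by
  rw [← h, L.ldiv_mul]

theorem rdiv_eq {a x y : Q} (h : L.mul x a = y) : L.rdiv y a = x := by
  rw [← h, L.mul_rdiv]

/-- The closure form of universal flexibility. -/
theorem ufx (h : L.UF) {p r a b : Q} (e : L.mul p b = L.mul a r) (s : Q) :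
    L.mul p (L.ldiv a (L.mul (L.rdiv s b) r)) =
      L.mul (L.rdiv (L.mul p (L.ldiv a s)) b) r := by
  have := h a b (L.mul p b) s
  simp only [iso] at this
  rw [L.mul_rdiv] at this
  have e2 : L.ldiv a (L.mul p b) = r := by rw [e, L.ldiv_mul]
  rw [e2] at this
  exact this

/-- The closure condition of universal flexibility. -/
theorem U1 (h : L.UF) {a u s t b w v r : Q} (A : L.mul a w = L.mul u b)
    (B : L.mul a v = L.mul t b) (C : L.mul u v = L.mul s b) (D : L.mul t w = L.mul a r) :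
    L.mul u r = L.mul s w := by
  have := ufx h A.symm (L.mul a v)
  rw [L.ldiv_mul, B, L.mul_rdiv, C, L.mul_rdiv, D, L.ldiv_mul] at this
  exact this

theorem U2 (h : L.UF) {a u s t b w v r : Q} (A : L.mul a w = L.mul u b)
    (B : L.mul a v = L.mul t b) (D : L.mul t w = L.mul a r) (E : L.mul u r = L.mul s w) :
    L.mul u v = L.mul s b := by
  have h1 : L.mul u v = L.mul (L.rdiv (L.mul u v) b) b := (L.rdiv_mul _ _).symm
  have h2 := U1 h A B h1 D
  rw [E] at h2
  rw [h1, ← rcancel h2]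

theorem U4 (h : L.UF) {a u s t b w v r : Q} (A : L.mul a w = L.mul u b)
    (B : L.mul a v = L.mul t b) (C : L.mul u v = L.mul s b) (E : L.mul u r = L.mul s w) :
    L.mul t w = L.mul a r := by
  have h1 : L.mul t w = L.mul a (L.ldiv a (L.mul t w)) := (L.mul_ldiv _ _).symm
  have h2 := U1 h A B C h1
  rw [← E] at h2
  rw [h1, lcancel h2]

theorem U3 (h : L.UF) {a u s t b w v r : Q} (A : L.mul a w = L.mul u b)
    (C : L.mul u v = L.mul s b) (D : L.mul t w = L.mul a r) (E : L.mul u r = L.mul s w) :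
    L.mul a v = L.mul t b := by
  have h1 : L.mul a v = L.mul (L.rdiv (L.mul a v) b) b := (L.rdiv_mul _ _).symm
  have h2 := U4 h A h1 C E
  rw [← D] at h2
  rw [h1, rcancel h2]

theorem M1 (h : L.MiddleBol) {p p' r r' q q' c c' x : Q} (A : L.mul p q = L.mul p' q')
    (h1 : L.mul p c = x) (h2 : L.mul r q = x) (h3 : L.mul p' c' = x) (h4 : L.mul r' q' = x) :
    L.mul r c = L.mul r' c' := by
  have e1 := h x p q
  have e2 := h x p' q'
  rw [ldiv_eq h1, rdiv_eq h2] at e1
  rw [ldiv_eq h3, rdiv_eq h4, ← A] at e2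
  rw [← e1, ← e2]

theorem M2 (h : L.MiddleBol) {p p' r r' q q' c c' x : Q}
    (h1 : L.mul p c = x) (h2 : L.mul r q = x) (h3 : L.mul p' c' = x) (h4 : L.mul r' q' = x)
    (E : L.mul r c = L.mul r' c') : L.mul p q = L.mul p' q' := by
  have e1 := h x p q
  have e2 := h x p' q'
  rw [ldiv_eq h1, rdiv_eq h2] at e1
  rw [ldiv_eq h3, rdiv_eq h4, ← E, ← e1] at e2
  have e3 := lcancel e2
  have e4 : L.mul (L.mul p q) (L.ldiv (L.mul p q) x) = x := L.mul_ldiv _ _
  have e5 : L.mul (L.mul p' q') (L.ldiv (L.mul p q) x) = x := by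
    rw [← e3]; exact L.mul_ldiv _ _
  exact rcancel (e4.trans e5.symm)

theorem M3 (h : L.MiddleBol) {p p' r r' q q' c c' x : Q} (A : L.mul p q = L.mul p' q')
    (h2 : L.mul r q = x) (h3 : L.mul p' c' = x) (h4 : L.mul r' q' = x)
    (E : L.mul r c = L.mul r' c') : L.mul p c = x := by
  have e1 : L.mul p (L.ldiv p x) = x := L.mul_ldiv _ _
  have e2 := M1 h A e1 h2 h3 h4
  rw [← E] at e2
  rw [← lcancel e2]
  exact e1

theorem M4 (h : L.MiddleBol) {p p' r r' q q' c c' x : Q} (A : L.mul p q = L.mul p' q')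
    (h1 : L.mul p c = x) (h3 : L.mul p' c' = x) (h4 : L.mul r' q' = x)
    (E : L.mul r c = L.mul r' c') : L.mul r q = x := by
  have e1 : L.mul (L.rdiv x q) q = x := L.rdiv_mul _ _
  have e2 := M1 h A h1 e1 h3 h4
  rw [← E] at e2
  rw [← rcancel e2]
  exact e1

/-! ### central elements -/

/-- central elements move to the right -/
theorem Central.left {c : Q} (hc : L.Central c) (x y : Q) :
    L.mul (L.mul x c) y = L.mul (L.mul x y) c := by
  rw [hc.2.2.1, hc.1, hc.2.2.2]

theorem Central.right {c : Q} (hc : L.Central c) (x y : Q) :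
    L.mul x (L.mul y c) = L.mul (L.mul x y) c := (hc.2.2.2 x y).symm

theorem central_one : L.Central L.one :=
  ⟨fun x => by rw [L.one_mul, L.mul_one], fun x y => by rw [L.one_mul, L.one_mul],
    fun x y => by rw [L.one_mul, L.mul_one], fun x y => by rw [L.mul_one, L.mul_one]⟩

theorem Central.mul {c d : Q} (hc : L.Central c) (hd : L.Central d) :
    L.Central (L.mul c d) := by
  refine ⟨fun x => ?_, fun x y => ?_, fun x y => ?_, fun x y => ?_⟩
  · rw [hd.left, hd.right, hc.1]
  · rw [hd.left, hd.left, hd.left, hc.2.1]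
  · rw [hd.right, hd.left, hd.left, hd.right, hc.left, hc.1 y, hc.right]
  · rw [hd.right, hd.right, hd.right, hc.right]

theorem Central.inv {c : Q} (hc : L.Central c) : L.Central (L.inv c) := by
  have h0 : L.mul c (L.inv c) = L.one := L.mul_ldiv _ _
  have k : ∀ x, L.mul c (L.mul (L.inv c) x) = x := fun x => by
    rw [← hc.2.1, h0, L.one_mul]
  have h1 : ∀ x, L.mul (L.inv c) x = L.mul x (L.inv c) := fun x => by
    apply lcancel (a := c)
    rw [k, ← hc.2.1, hc.1 x, hc.2.2.1, h0, L.mul_one]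
  have h2 : ∀ x y, L.mul (L.mul (L.inv c) x) y = L.mul (L.inv c) (L.mul x y) := fun x y => by
    apply lcancel (a := c)
    rw [k, ← hc.2.1, k]
  have h3 : ∀ x y, L.mul x (L.mul (L.inv c) y) = L.mul (L.inv c) (L.mul x y) := fun x y => by
    apply lcancel (a := c)
    rw [k, ← hc.2.1, hc.1 x, hc.2.2.1, k]
  refine ⟨h1, h2, fun x y => ?_, fun x y => ?_⟩
  · rw [← h1 x, h2, h3]
  · rw [← h1, ← h1 y, h3]

/-- The center, as a type. -/
def Cen (L : LoopStr Q) : Type _ := {c : Q // L.Central c}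

instance : Zero L.Cen := ⟨⟨L.one, central_one⟩⟩

instance : Add L.Cen := ⟨fun a b => ⟨L.mul a.1 b.1, a.2.mul b.2⟩⟩

instance : Neg L.Cen := ⟨fun a => ⟨L.inv a.1, a.2.inv⟩⟩

instance : AddGroup L.Cen := AddGroup.ofLeftAxioms
  (fun a b c => Subtype.ext (c.2.2.2.2 a.1 b.1))
  (fun a => Subtype.ext (L.one_mul _))
  (fun a => Subtype.ext (by
    show L.mul (L.inv a.1) a.1 = L.one
    rw [← a.2.1]; exact L.mul_ldiv _ _))

instance : AddCommGroup L.Cen where
  add_comm a b := Subtype.ext (a.2.1 b.1)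

/-- `x` times a central element. -/
def sm (L : LoopStr Q) (x : Q) (c : L.Cen) : Q := L.mul x c.1

theorem sm_zero (x : Q) : L.sm x 0 = x := L.mul_one x

theorem sm_add (x : Q) (c d : L.Cen) : L.sm x (c + d) = L.sm (L.sm x c) d :=
  (d.2.2.2.2 x c.1).symm

theorem mul_sm (x y : Q) (c : L.Cen) : L.mul x (L.sm y c) = L.sm (L.mul x y) c :=
  c.2.right x y

theorem sm_mul (x y : Q) (c : L.Cen) : L.mul (L.sm x c) y = L.sm (L.mul x y) c :=
  c.2.left x y

theorem sm_inj {x : Q} {c d : L.Cen} (h : L.sm x c = L.sm x d) : c = d :=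
  Subtype.ext (lcancel h)

/-! ### the central quotient -/

/-- `x` and `y` differ by a central factor. -/
def rel (L : LoopStr Q) (x y : Q) : Prop := ∃ c : L.Cen, x = L.sm y c

theorem rel_refl (x : Q) : L.rel x x := ⟨0, (sm_zero x).symm⟩

theorem rel_symm {x y : Q} (h : L.rel x y) : L.rel y x := by
  obtain ⟨c, rfl⟩ := h
  exact ⟨-c, by rw [← sm_add, add_neg_cancel, sm_zero]⟩

theorem rel_trans {x y z : Q} (h : L.rel x y) (h' : L.rel y z) : L.rel x z := by
  obtain ⟨c, rfl⟩ := h
  obtain ⟨d, rfl⟩ := h'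
  exact ⟨d + c, (sm_add _ _ _).symm⟩

theorem rel_mul {x y x' y' : Q} (h : L.rel x y) (h' : L.rel x' y') :
    L.rel (L.mul x x') (L.mul y y') := by
  obtain ⟨c, rfl⟩ := h
  obtain ⟨d, rfl⟩ := h'
  exact ⟨d + c, by rw [sm_mul, mul_sm, ← sm_add]⟩

theorem rel_ldiv {x y x' y' : Q} (h : L.rel x y) (h' : L.rel x' y') :
    L.rel (L.ldiv x x') (L.ldiv y y') := by
  obtain ⟨c, rfl⟩ := h
  obtain ⟨d, rfl⟩ := h'
  refine ⟨d - c, ?_⟩
  apply ldiv_eq
  rw [sm_mul, mul_sm, L.mul_ldiv, ← sm_add]; congr 1; abel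

theorem rel_rdiv {x y x' y' : Q} (h : L.rel x y) (h' : L.rel x' y') :
    L.rel (L.rdiv x x') (L.rdiv y y') := by
  obtain ⟨c, rfl⟩ := h
  obtain ⟨d, rfl⟩ := h'
  refine ⟨c - d, ?_⟩
  apply rdiv_eq
  rw [sm_mul, mul_sm, L.rdiv_mul, ← sm_add]; congr 1; abel

/-- The setoid of the central quotient. -/
def setoid (L : LoopStr Q) : Setoid Q := ⟨L.rel, rel_refl, rel_symm, rel_trans⟩

/-- The carrier of the central quotient `Q / Z(Q)`. -/
def Quot (L : LoopStr Q) : Type _ := Quotient L.setoid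

/-- The projection to the central quotient. -/
def proj (L : LoopStr Q) (x : Q) : L.Quot := Quotient.mk L.setoid x

theorem proj_surj (x : L.Quot) : ∃ y, L.proj y = x := Quotient.exists_rep x

theorem proj_eq {x y : Q} (h : L.proj x = L.proj y) : ∃ c : L.Cen, x = L.sm y c :=
  Quotient.exact (s := L.setoid) h

theorem proj_of_rel {x y : Q} (h : L.rel x y) : L.proj x = L.proj y :=
  Quotient.sound (s := L.setoid) h

/-- The central quotient. -/
def quot (L : LoopStr Q) : LoopStr L.Quot where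
  mul := Quotient.map₂ L.mul (fun _ _ h _ _ h' => rel_mul h h')
  ldiv := Quotient.map₂ L.ldiv (fun _ _ h _ _ h' => rel_ldiv h h')
  rdiv := Quotient.map₂ L.rdiv (fun _ _ h _ _ h' => rel_rdiv h h')
  one := L.proj L.one
  mul_ldiv a b := by
    induction a using Quotient.inductionOn; induction b using Quotient.inductionOn
    exact congrArg L.proj (L.mul_ldiv _ _)
  ldiv_mul a b := by
    induction a using Quotient.inductionOn; induction b using Quotient.inductionOn
    exact congrArg L.proj (L.ldiv_mul _ _)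
  rdiv_mul a b := by
    induction a using Quotient.inductionOn; induction b using Quotient.inductionOn
    exact congrArg L.proj (L.rdiv_mul _ _)
  mul_rdiv a b := by
    induction a using Quotient.inductionOn; induction b using Quotient.inductionOn
    exact congrArg L.proj (L.mul_rdiv _ _)
  one_mul a := by
    induction a using Quotient.inductionOn
    exact congrArg L.proj (L.one_mul _)
  mul_one a := by
    induction a using Quotient.inductionOn
    exact congrArg L.proj (L.mul_one _)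

theorem proj_mul (x y : Q) : L.quot.mul (L.proj x) (L.proj y) = L.proj (L.mul x y) := rfl

theorem proj_ldiv (x y : Q) : L.quot.ldiv (L.proj x) (L.proj y) = L.proj (L.ldiv x y) := rfl

theorem proj_rdiv (x y : Q) : L.quot.rdiv (L.proj x) (L.proj y) = L.proj (L.rdiv x y) := rfl

theorem quot_UF (h : L.UF) : L.quot.UF := by
  intro a b x y
  obtain ⟨a, rfl⟩ := proj_surj a
  obtain ⟨b, rfl⟩ := proj_surj b
  obtain ⟨x, rfl⟩ := proj_surj x
  obtain ⟨y, rfl⟩ := proj_surj y
  exact congrArg L.proj (h a b x y)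

theorem quot_MB (h : L.MiddleBolModCenter) : L.quot.MiddleBol := by
  intro x y z
  obtain ⟨x, rfl⟩ := proj_surj x
  obtain ⟨y, rfl⟩ := proj_surj y
  obtain ⟨z, rfl⟩ := proj_surj z
  obtain ⟨c, hc, e⟩ := h x y z
  exact proj_of_rel ⟨⟨c, hc⟩, e⟩

/-! ### central extensions -/

/-- A central extension of the loop `M` by the abelian group `A`, with total space `L`. -/
structure Ext {N : Type*} (L : LoopStr Q) (M : LoopStr N) (A : Type*) [AddCommGroup A] where
  pr : Q → N
  sm : Q → A → Q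
  surj : ∀ n, ∃ x, pr x = n
  sm_zero : ∀ x, sm x 0 = x
  sm_add : ∀ x c d, sm x (c + d) = sm (sm x c) d
  mul_sm : ∀ x y c, L.mul x (sm y c) = sm (L.mul x y) c
  sm_mul : ∀ x y c, L.mul (sm x c) y = sm (L.mul x y) c
  sm_inj : ∀ {x c d}, sm x c = sm x d → c = d
  pr_mul : ∀ x y, M.mul (pr x) (pr y) = pr (L.mul x y)
  pr_eq : ∀ {x y}, pr x = pr y → ∃ c, x = sm y c

/-- The extension of the central quotient by the center. -/
def centerExt (L : LoopStr Q) : Ext L L.quot L.Cen where
  pr := L.proj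
  sm := L.sm
  surj := proj_surj
  sm_zero := LoopStr.sm_zero
  sm_add := LoopStr.sm_add
  mul_sm := LoopStr.mul_sm
  sm_mul := LoopStr.sm_mul
  sm_inj := LoopStr.sm_inj
  pr_mul := proj_mul
  pr_eq := proj_eq

namespace Ext

variable {N A : Type*} [AddCommGroup A] {M : LoopStr N} (X : Ext L M A)

theorem lift {x y z : Q} (h : M.mul (X.pr x) (X.pr y) = X.pr z) :
    ∃ c : A, L.mul x y = X.sm z c := by
  rw [X.pr_mul] at h
  exact X.pr_eq h

theorem pr_one : X.pr L.one = M.one := by
  apply rcancel (L := M) (a := X.pr L.one)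
  rw [X.pr_mul, L.one_mul, M.one_mul]

theorem lift1 {x y : Q} (h : M.mul (X.pr x) (X.pr y) = M.one) :
    ∃ c : A, L.mul x y = X.sm L.one c := by
  rw [← X.pr_one] at h
  exact X.lift h

theorem one_l (x : Q) : L.mul L.one x = X.sm x 0 := by rw [L.one_mul, X.sm_zero]

theorem one_r (x : Q) : L.mul x L.one = X.sm x 0 := by rw [L.mul_one, X.sm_zero]

/-- The relation between the central factors of the products in a UF closure figure. -/
theorem rel (h : L.UF) {a u s t b w v r z0 z1 z2 z3 z4 : Q} {c0 c1 c2 c3 c4 c5 c6 c7 c8 c9 : A}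
    (h0 : L.mul a w = X.sm z0 c0) (h1 : L.mul u b = X.sm z0 c1)
    (h2 : L.mul a v = X.sm z1 c2) (h3 : L.mul t b = X.sm z1 c3)
    (h4 : L.mul t w = X.sm z3 c4) (h5 : L.mul a r = X.sm z3 c5)
    (h6 : L.mul u r = X.sm z4 c6) (h7 : L.mul s w = X.sm z4 c7)
    (h8 : L.mul s b = X.sm z2 c8) (h9 : L.mul u v = X.sm z2 c9) :
    c8 - c9 + c2 - c3 + c4 - c5 + c6 - c7 = 0 := by
  have A : L.mul a (X.sm w (c1 - c0)) = L.mul u b := by
    rw [X.mul_sm, h0, h1, ← X.sm_add]; congr 1; abel
  have B : L.mul a v = L.mul (X.sm t (c2 - c3)) b := by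
    rw [X.sm_mul, h2, h3, ← X.sm_add]; congr 1; abel
  have C : L.mul u v = L.mul (X.sm s (c9 - c8)) b := by
    rw [X.sm_mul, h8, h9, ← X.sm_add]; congr 1; abel
  have D : L.mul (X.sm t (c2 - c3)) (X.sm w (c1 - c0)) =
      L.mul a (X.sm r (c4 - c5 + (c2 - c3) + (c1 - c0))) := by
    rw [X.sm_mul, X.mul_sm, X.mul_sm, h4, h5, ← X.sm_add, ← X.sm_add, ← X.sm_add]; congr 1; abel
  have E := U1 h A B C D
  rw [X.sm_mul, X.mul_sm, X.mul_sm, h6, h7, ← X.sm_add, ← X.sm_add, ← X.sm_add] at E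
  have E2 := X.sm_inj E
  have : c8 - c9 + c2 - c3 + c4 - c5 + c6 - c7 =
      (c6 + (c4 - c5 + (c2 - c3) + (c1 - c0))) - (c7 + (c1 - c0) + (c9 - c8)) := by abel
  rw [this, E2]; abel

end Ext

end LoopStr

end Pool.Agent.V7H71.UF
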