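import Pool.Agent.V7H71.UF.Basic

namespace Pool.Agent.V7H71.UF

namespace LoopStr

set_option linter.unusedVariables false

theorem e1_facts {N : Type*} {M : LoopStr N} (hM : M.UF) (hB : M.MiddleBol) (e1 e2 e3 : N) (hyp : M.mul e1 e2 = M.mul e2 e3) :
    ∃ e4 e5 e6 e7 e8 e9 e10 e11 e12 e13 e14 e15 e16 e17 e18 e19 e20 e21 e22 e23 e24 e25 e26 e27 e28 e29 e30 e31 e32 e33 : N,
      M.mul e1 e2 = e4 ∧
      M.mul e2 e3 = e4 ∧
      M.mul e1 e4 = e7 ∧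
      M.mul e6 e5 = e8 ∧
      M.mul e5 e1 = M.one ∧
      M.mul e6 e2 = M.one ∧
      M.mul e9 e3 = M.one ∧
      M.mul e8 e4 = M.one ∧
      M.mul e4 e8 = M.one ∧
      M.mul e4 e3 = e7 ∧
      M.mul e9 e6 = e8 ∧
      M.mul e2 e10 = e1 ∧
      M.mul e4 e11 = e1 ∧
      M.mul e12 e4 = e2 ∧
      M.mul e9 e2 = e13 ∧
      M.mul e14 e6 = e5 ∧
      M.mul e8 e5 = e15 ∧
      M.mul e16 e8 = e5 ∧
      M.mul e8 e17 = e6 ∧
      M.mul e6 e3 = e18 ∧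
      M.mul e9 e4 = e19 ∧
      M.mul e8 e3 = e20 ∧
      M.mul e5 e10 = e21 ∧
      M.mul e6 e10 = e22 ∧
      M.mul e5 e11 = e23 ∧
      M.mul e8 e11 = e24 ∧
      M.mul e12 e6 = e25 ∧
      M.mul e12 e8 = e26 ∧
      M.mul e12 e3 = e27 ∧
      M.mul e6 e28 = e13 ∧
      M.mul e14 e1 = e29 ∧
      M.mul e15 e6 = e30 ∧
      M.mul e15 e3 = e31 ∧
      M.mul e16 e1 = e32 ∧
      M.mul e16 e4 = e33 ∧
      M.mul e2 e20 = e27 ∧
      M.mul e14 e10 = M.one ∧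
      M.mul e16 e11 = M.one ∧
      M.mul e12 e17 = M.one ∧
      M.mul e33 e24 = M.one ∧
      M.mul e24 e33 = M.one ∧
      M.mul e33 e11 = e32 ∧
      M.mul e10 e2 = e3 ∧
      M.mul e11 e4 = e3 ∧
      M.mul e12 e7 = e4 ∧
      M.mul e22 e2 = e18 ∧
      M.mul e24 e4 = e20 ∧
      M.mul e6 e14 = e9 ∧
      M.mul e8 e16 = e9 ∧
      M.mul e15 e17 = e8 ∧
      M.mul e26 e7 = e27 ∧
      M.mul e9 e8 = e15 ∧
      M.mul e14 e22 = e21 ∧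
      M.mul e16 e24 = e23 ∧
      M.mul e8 e25 = e30 ∧
      M.mul e26 e17 = e25 ∧
      M.mul e31 e8 = e30 ∧
      M.mul e9 e20 = e31 ∧
      M.mul e14 e2 = e28 ∧
      M.mul e8 e33 = e19 ∧
      M.mul e22 e28 = M.one ∧
      M.mul e28 e22 = M.one ∧
      M.mul e8 e27 = e31 ∧
      M.mul e27 e8 = e25 ∧
      M.mul e28 e10 = e29 := by
  obtain ⟨e4, h9⟩ : ∃ e, M.mul e1 e2 = e := ⟨M.mul e1 e2, rfl⟩
  have h10 : M.mul e2 e3 = e4 := hyp.symm.trans h9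
  obtain ⟨e5, h13⟩ : ∃ e, M.mul e1 e = M.one := ⟨M.ldiv e1 M.one, M.mul_ldiv _ _⟩
  obtain ⟨e6, h16⟩ : ∃ e, M.mul e2 e = M.one := ⟨M.ldiv e2 M.one, M.mul_ldiv _ _⟩
  obtain ⟨e7, h18⟩ : ∃ e, M.mul e1 e4 = e := ⟨M.mul e1 e4, rfl⟩
  obtain ⟨e8, h21⟩ : ∃ e, M.mul e6 e5 = e := ⟨M.mul e6 e5, rfl⟩
  obtain ⟨e9, h24⟩ : ∃ e, M.mul e3 e = M.one := ⟨M.ldiv e3 M.one, M.mul_ldiv _ _⟩
  have h25 : M.mul e5 e1 = M.one :=
    (U4 hM ((M.one_mul e1).trans (M.mul_one e1).symm) ((M.one_mul e5).trans (M.mul_one e5).symm) (h13.trans (M.one_mul M.one).symm) ((M.mul_one e1).trans (M.one_mul e1).symm)).trans (M.one_mul M.one)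
  have h26 : M.mul e6 e2 = M.one :=
    (U4 hM ((M.one_mul e2).trans (M.mul_one e2).symm) ((M.one_mul e6).trans (M.mul_one e6).symm) (h16.trans (M.one_mul M.one).symm) ((M.mul_one e2).trans (M.one_mul e2).symm)).trans (M.one_mul M.one)
  have h27 : M.mul e9 e3 = M.one :=
    (U4 hM ((M.one_mul e3).trans (M.mul_one e3).symm) ((M.one_mul e9).trans (M.mul_one e9).symm) (h24.trans (M.one_mul M.one).symm) ((M.mul_one e3).trans (M.one_mul e3).symm)).trans (M.one_mul M.one)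
  have h28 : M.mul e8 e4 = M.one :=
    M4 hB ((M.one_mul e4).trans h9.symm) (M.one_mul M.one) h13 h26 ((M.mul_one e8).trans h21.symm)
  have h29 : M.mul e4 e8 = M.one :=
    M4 hB ((M.one_mul e8).trans h21.symm) (M.one_mul M.one) h26 h13 ((M.mul_one e4).trans h9.symm)
  have h30 : M.mul e4 e3 = e7 :=
    (M1 hB ((M.one_mul e2).trans (M.mul_one e2).symm) (M.one_mul e4) h9 h10 (M.mul_one e4)).symm.trans h18
  have h31 : M.mul e9 e6 = e8 :=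
    (M1 hB ((M.one_mul e4).trans h10.symm) (M.one_mul M.one) h28 h16 h27).symm.trans (M.mul_one e8)
  obtain ⟨e10, h34⟩ : ∃ e, M.mul e2 e = e1 := ⟨M.ldiv e2 e1, M.mul_ldiv _ _⟩
  obtain ⟨e11, h37⟩ : ∃ e, M.mul e4 e = e1 := ⟨M.ldiv e4 e1, M.mul_ldiv _ _⟩
  obtain ⟨e12, h38⟩ : ∃ e, M.mul e e4 = e2 := ⟨M.rdiv e2 e4, M.rdiv_mul _ _⟩
  obtain ⟨e13, h39⟩ : ∃ e, M.mul e9 e2 = e := ⟨M.mul e9 e2, rfl⟩
  obtain ⟨e14, h42⟩ : ∃ e, M.mul e e6 = e5 := ⟨M.rdiv e5 e6, M.rdiv_mul _ _⟩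
  obtain ⟨e15, h44⟩ : ∃ e, M.mul e8 e5 = e := ⟨M.mul e8 e5, rfl⟩
  obtain ⟨e16, h47⟩ : ∃ e, M.mul e e8 = e5 := ⟨M.rdiv e5 e8, M.rdiv_mul _ _⟩
  obtain ⟨e17, h48⟩ : ∃ e, M.mul e8 e = e6 := ⟨M.ldiv e8 e6, M.mul_ldiv _ _⟩
  obtain ⟨e18, h49⟩ : ∃ e, M.mul e6 e3 = e := ⟨M.mul e6 e3, rfl⟩
  obtain ⟨e19, h50⟩ : ∃ e, M.mul e9 e4 = e := ⟨M.mul e9 e4, rfl⟩
  obtain ⟨e20, h52⟩ : ∃ e, M.mul e8 e3 = e := ⟨M.mul e8 e3, rfl⟩
  obtain ⟨e21, h53⟩ : ∃ e, M.mul e5 e10 = e := ⟨M.mul e5 e10, rfl⟩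
  obtain ⟨e22, h56⟩ : ∃ e, M.mul e6 e10 = e := ⟨M.mul e6 e10, rfl⟩
  obtain ⟨e23, h57⟩ : ∃ e, M.mul e5 e11 = e := ⟨M.mul e5 e11, rfl⟩
  obtain ⟨e24, h60⟩ : ∃ e, M.mul e8 e11 = e := ⟨M.mul e8 e11, rfl⟩
  obtain ⟨e25, h62⟩ : ∃ e, M.mul e12 e6 = e := ⟨M.mul e12 e6, rfl⟩
  obtain ⟨e26, h64⟩ : ∃ e, M.mul e12 e8 = e := ⟨M.mul e12 e8, rfl⟩
  obtain ⟨e27, h67⟩ : ∃ e, M.mul e12 e3 = e := ⟨M.mul e12 e3, rfl⟩
  obtain ⟨e28, h70⟩ : ∃ e, M.mul e6 e = e13 := ⟨M.ldiv e6 e13, M.mul_ldiv _ _⟩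
  obtain ⟨e29, h71⟩ : ∃ e, M.mul e14 e1 = e := ⟨M.mul e14 e1, rfl⟩
  obtain ⟨e30, h72⟩ : ∃ e, M.mul e15 e6 = e := ⟨M.mul e15 e6, rfl⟩
  obtain ⟨e31, h74⟩ : ∃ e, M.mul e15 e3 = e := ⟨M.mul e15 e3, rfl⟩
  obtain ⟨e32, h75⟩ : ∃ e, M.mul e16 e1 = e := ⟨M.mul e16 e1, rfl⟩
  obtain ⟨e33, h78⟩ : ∃ e, M.mul e16 e4 = e := ⟨M.mul e16 e4, rfl⟩
  have h79 : M.mul e2 e20 = e27 :=
    (U4 hM (h10.trans (M.one_mul e4).symm) ((M.mul_one e2).trans h38.symm) ((M.one_mul M.one).trans h28.symm) ((M.one_mul e20).trans h52.symm)).symm.trans h67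
  have h80 : M.mul e14 e10 = M.one :=
    M3 hB (h42.trans (M.one_mul e5).symm) h16 (M.one_mul M.one) h13 (h34.trans (M.mul_one e1).symm)
  have h81 : M.mul e16 e11 = M.one :=
    M3 hB (h47.trans (M.one_mul e5).symm) h29 (M.one_mul M.one) h13 (h37.trans (M.mul_one e1).symm)
  have h82 : M.mul e12 e17 = M.one :=
    M4 hB (h48.trans (M.one_mul e6).symm) h28 (M.one_mul M.one) h16 (h38.trans (M.mul_one e2).symm)
  have h83 : M.mul e15 e7 = M.one :=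
    M4 hB ((M.one_mul e7).trans h18.symm) (M.one_mul M.one) h13 h28 ((M.mul_one e15).trans h44.symm)
  have h84 : M.mul e33 e24 = M.one :=
    M4 hB ((M.one_mul e24).trans h60.symm) (M.one_mul M.one) h28 h81 ((M.mul_one e33).trans h78.symm)
  have h85 : M.mul e10 e14 = M.one :=
    M4 hB ((M.one_mul e14).trans (M.mul_one e14).symm) (M.one_mul M.one) h80 (M.one_mul M.one) ((M.mul_one e10).trans (M.one_mul e10).symm)
  have h86 : M.mul e11 e16 = M.one :=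
    M4 hB ((M.one_mul e16).trans (M.mul_one e16).symm) (M.one_mul M.one) h81 (M.one_mul M.one) ((M.mul_one e11).trans (M.one_mul e11).symm)
  have h87 : M.mul e24 e33 = M.one :=
    M4 hB ((M.one_mul e33).trans h78.symm) (M.one_mul M.one) h81 h28 ((M.mul_one e24).trans h60.symm)
  have h88 : M.mul e33 e11 = e32 :=
    (U2 hM ((M.one_mul M.one).trans h81.symm) ((M.one_mul e1).trans h37.symm) ((M.mul_one e4).trans (M.one_mul e4).symm) (h78.trans (M.mul_one e33).symm)).symm.trans h75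
  have h89 : M.mul e10 e2 = e3 :=
    (U4 hM ((M.one_mul e2).trans (M.mul_one e2).symm) ((M.one_mul e10).trans (M.mul_one e10).symm) (h34.trans (M.mul_one e1).symm) (h10.trans h9.symm)).trans (M.one_mul e3)
  have h90 : M.mul e11 e4 = e3 :=
    (U4 hM ((M.one_mul e4).trans (M.mul_one e4).symm) ((M.one_mul e11).trans (M.mul_one e11).symm) (h37.trans (M.mul_one e1).symm) (h30.trans h18.symm)).trans (M.one_mul e3)
  have h91 : M.mul e12 e7 = e4 :=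
    (U2 hM ((M.one_mul e2).trans h38.symm) ((M.one_mul e7).trans h18.symm) (h9.trans (M.one_mul e4).symm) (h38.trans (M.one_mul e2).symm)).trans (M.one_mul e4)
  have h92 : M.mul e22 e2 = e18 :=
    (U2 hM ((M.one_mul M.one).trans h26.symm) ((M.one_mul e3).trans h89.symm) ((M.mul_one e10).trans (M.one_mul e10).symm) (h56.trans (M.mul_one e22).symm)).symm.trans h49
  have h93 : M.mul e24 e4 = e20 :=
    (U2 hM ((M.one_mul M.one).trans h28.symm) ((M.one_mul e3).trans h90.symm) ((M.mul_one e11).trans (M.one_mul e11).symm) (h60.trans (M.mul_one e24).symm)).symm.trans h52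
  have h94 : M.mul e6 e14 = e9 :=
    (M1 hB ((M.one_mul e3).trans h89.symm) (M.one_mul M.one) h27 h85 h26).symm.trans (M.mul_one e9)
  have h95 : M.mul e8 e16 = e9 :=
    (M1 hB ((M.one_mul e3).trans h90.symm) (M.one_mul M.one) h27 h86 h28).symm.trans (M.mul_one e9)
  have h96 : M.mul e15 e17 = e8 :=
    (M1 hB ((M.one_mul e4).trans h91.symm) (M.one_mul M.one) h28 h82 h83).symm.trans (M.mul_one e8)
  have h97 : M.mul e26 e7 = e27 :=
    (U2 hM ((M.mul_one e4).trans h91.symm) (h30.trans (M.one_mul e7).symm) ((M.one_mul M.one).trans h29.symm) (h64.trans (M.mul_one e26).symm)).symm.trans h67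
  have h98 : M.mul e9 e8 = e15 :=
    (U3 hM ((M.mul_one e8).trans (M.one_mul e8).symm) ((M.one_mul e5).trans h47.symm) ((M.mul_one e9).trans h95.symm) ((M.one_mul e16).trans (M.mul_one e16).symm)).symm.trans h44
  have h99 : M.mul e14 e22 = e21 :=
    (U2 hM ((M.one_mul M.one).trans h80.symm) ((M.one_mul e22).trans h56.symm) ((M.mul_one e6).trans (M.one_mul e6).symm) (h42.trans (M.mul_one e5).symm)).trans h53
  have h100 : M.mul e16 e24 = e23 :=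
    (U2 hM ((M.one_mul M.one).trans h81.symm) ((M.one_mul e24).trans h60.symm) ((M.mul_one e8).trans (M.one_mul e8).symm) (h47.trans (M.mul_one e5).symm)).trans h57
  have h101 : M.mul e8 e25 = e30 :=
    (U1 hM ((M.one_mul e6).trans h48.symm) ((M.one_mul M.one).trans h82.symm) ((M.mul_one e8).trans h96.symm) (h62.trans (M.one_mul e25).symm)).trans h72
  have h102 : M.mul e26 e17 = e25 :=
    (U2 hM ((M.one_mul M.one).trans h82.symm) ((M.one_mul e6).trans h48.symm) ((M.mul_one e8).trans (M.one_mul e8).symm) (h64.trans (M.mul_one e26).symm)).symm.trans h62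
  have h103 : M.mul e31 e8 = e30 :=
    (U3 hM ((M.mul_one e15).trans h98.symm) (h31.trans (M.one_mul e8).symm) ((M.mul_one e31).trans h74.symm) (h27.trans (M.one_mul M.one).symm)).symm.trans h72
  have h104 : M.mul e9 e20 = e31 :=
    (U4 hM (h27.trans (M.one_mul M.one).symm) (h98.trans (M.mul_one e15).symm) ((M.one_mul e8).trans (M.mul_one e8).symm) ((M.one_mul e20).trans h52.symm)).symm.trans h74
  have h105 : M.mul e14 e2 = e28 :=
    (U3 hM ((M.one_mul M.one).trans h26.symm) (h70.trans h39.symm) ((M.mul_one e14).trans (M.one_mul e14).symm) (h94.trans (M.mul_one e9).symm)).symm.trans (M.one_mul e28)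
  have h106 : M.mul e8 e33 = e19 :=
    (U2 hM ((M.one_mul M.one).trans h28.symm) ((M.one_mul e33).trans h78.symm) ((M.mul_one e16).trans (M.one_mul e16).symm) (h95.trans (M.mul_one e9).symm)).trans h50
  have h107 : M.mul e22 e28 = M.one :=
    (U4 hM (h70.trans h39.symm) (h49.trans h92.symm) (h27.trans h26.symm) (h39.trans h70.symm)).trans h26
  have h108 : M.mul e28 e22 = M.one :=
    M4 hB ((M.one_mul e22).trans h56.symm) (M.one_mul M.one) h26 h80 ((M.mul_one e28).trans h105.symm)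
  have h109 : M.mul e8 e27 = e31 :=
    (U1 hM ((M.one_mul e20).trans h52.symm) ((M.one_mul e4).trans h10.symm) (h28.trans h27.symm) (h79.trans (M.one_mul e27).symm)).trans h104
  have h110 : M.mul e27 e8 = e25 :=
    (U3 hM ((M.mul_one e26).trans h64.symm) (h82.trans h29.symm) ((M.mul_one e27).trans h97.symm) (h91.trans (M.mul_one e4).symm)).symm.trans h102
  have h111 : M.mul e28 e10 = e29 :=
    (U4 hM (h80.trans (M.one_mul M.one).symm) (h105.trans (M.mul_one e28).symm) ((M.one_mul e2).trans (M.mul_one e2).symm) ((M.one_mul e1).trans h34.symm)).trans h71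
  exact ⟨e4, e5, e6, e7, e8, e9, e10, e11, e12, e13, e14, e15, e16, e17, e18, e19, e20, e21, e22, e23, e24, e25, e26, e27, e28, e29, e30, e31, e32, e33, h9, h10, h18, h21, h25, h26, h27, h28, h29, h30, h31, h34, h37, h38, h39, h42, h44, h47, h48, h49, h50, h52, h53, h56, h57, h60, h62, h64, h67, h70, h71, h72, h74, h75, h78, h79, h80, h81, h82, h84, h87, h88, h89, h90, h91, h92, h93, h94, h95, h96, h97, h98, h99, h100, h101, h102, h103, h104, h105, h106, h107, h108, h109, h110, h111⟩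

theorem e1_double {Q N A : Type*} [AddCommGroup A] {L : LoopStr Q} {M : LoopStr N}
    (X : Ext L M A) (hL : L.UF) (hM : M.UF) (hB : M.MiddleBol) {q1 q2 q3 : Q}
    (h : L.mul q1 q2 = L.mul q2 q3) :
    ∃ d : A, d + d = 0 ∧ L.mul q1 (L.mul q1 q2) = X.sm (L.mul (L.mul q2 q3) q3) d := by
  obtain ⟨e4, e5, e6, e7, e8, e9, e10, e11, e12, e13, e14, e15, e16, e17, e18, e19, e20, e21, e22, e23, e24, e25, e26, e27, e28, e29, e30, e31, e32, e33, f0, f1, f2, f3, f4, f5, f6, f7, f8, f9, f10, f11, f12, f13, f14, f15, f16, f17, f18, f19, f20, f21, f22, f23, f24, f25, f26, f27, f28, f29, f30, f31, f32, f33, f34, f35, f36, f37, f38, f39, f40, f41, f42, f43, f44, f45, f46, f47, f48, f49, f50, f51, f52, f53, f54, f55, f56, f57, f58, f59, f60, f61, f62, f63, f64⟩ := e1_facts hM hB (X.pr q1) (X.pr q2) (X.pr q3) (by rw [X.pr_mul, X.pr_mul, h])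
  obtain ⟨q4, rfl⟩ := X.surj e4
  obtain ⟨q5, rfl⟩ := X.surj e5
  obtain ⟨q6, rfl⟩ := X.surj e6
  obtain ⟨q7, rfl⟩ := X.surj e7
  obtain ⟨q8, rfl⟩ := X.surj e8
  obtain ⟨q9, rfl⟩ := X.surj e9
  obtain ⟨q10, rfl⟩ := X.surj e10
  obtain ⟨q11, rfl⟩ := X.surj e11
  obtain ⟨q12, rfl⟩ := X.surj e12
  obtain ⟨q13, rfl⟩ := X.surj e13
  obtain ⟨q14, rfl⟩ := X.surj e14
  obtain ⟨q15, rfl⟩ := X.surj e15
  obtain ⟨q16, rfl⟩ := X.surj e16
  obtain ⟨q17, rfl⟩ := X.surj e17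
  obtain ⟨q18, rfl⟩ := X.surj e18
  obtain ⟨q19, rfl⟩ := X.surj e19
  obtain ⟨q20, rfl⟩ := X.surj e20
  obtain ⟨q21, rfl⟩ := X.surj e21
  obtain ⟨q22, rfl⟩ := X.surj e22
  obtain ⟨q23, rfl⟩ := X.surj e23
  obtain ⟨q24, rfl⟩ := X.surj e24
  obtain ⟨q25, rfl⟩ := X.surj e25
  obtain ⟨q26, rfl⟩ := X.surj e26
  obtain ⟨q27, rfl⟩ := X.surj e27
  obtain ⟨q28, rfl⟩ := X.surj e28
  obtain ⟨q29, rfl⟩ := X.surj e29
  obtain ⟨q30, rfl⟩ := X.surj e30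
  obtain ⟨q31, rfl⟩ := X.surj e31
  obtain ⟨q32, rfl⟩ := X.surj e32
  obtain ⟨q33, rfl⟩ := X.surj e33
  obtain ⟨c0, g0⟩ := X.lift f0
  obtain ⟨c1, g1⟩ := X.lift f1
  obtain ⟨c2, g2⟩ := X.lift f2
  obtain ⟨c3, g3⟩ := X.lift f3
  obtain ⟨c4, g4⟩ := X.lift1 f4
  obtain ⟨c5, g5⟩ := X.lift1 f5
  obtain ⟨c6, g6⟩ := X.lift1 f6
  obtain ⟨c7, g7⟩ := X.lift1 f7
  obtain ⟨c8, g8⟩ := X.lift1 f8
  obtain ⟨c9, g9⟩ := X.lift f9
  obtain ⟨c10, g10⟩ := X.lift f10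
  obtain ⟨c11, g11⟩ := X.lift f11
  obtain ⟨c12, g12⟩ := X.lift f12
  obtain ⟨c13, g13⟩ := X.lift f13
  obtain ⟨c14, g14⟩ := X.lift f14
  obtain ⟨c15, g15⟩ := X.lift f15
  obtain ⟨c16, g16⟩ := X.lift f16
  obtain ⟨c17, g17⟩ := X.lift f17
  obtain ⟨c18, g18⟩ := X.lift f18
  obtain ⟨c19, g19⟩ := X.lift f19
  obtain ⟨c20, g20⟩ := X.lift f20
  obtain ⟨c21, g21⟩ := X.lift f21
  obtain ⟨c22, g22⟩ := X.lift f22
  obtain ⟨c23, g23⟩ := X.lift f23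
  obtain ⟨c24, g24⟩ := X.lift f24
  obtain ⟨c25, g25⟩ := X.lift f25
  obtain ⟨c26, g26⟩ := X.lift f26
  obtain ⟨c27, g27⟩ := X.lift f27
  obtain ⟨c28, g28⟩ := X.lift f28
  obtain ⟨c29, g29⟩ := X.lift f29
  obtain ⟨c30, g30⟩ := X.lift f30
  obtain ⟨c31, g31⟩ := X.lift f31
  obtain ⟨c32, g32⟩ := X.lift f32
  obtain ⟨c33, g33⟩ := X.lift f33
  obtain ⟨c34, g34⟩ := X.lift f34
  obtain ⟨c35, g35⟩ := X.lift f35
  obtain ⟨c36, g36⟩ := X.lift1 f36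
  obtain ⟨c37, g37⟩ := X.lift1 f37
  obtain ⟨c38, g38⟩ := X.lift1 f38
  obtain ⟨c39, g39⟩ := X.lift1 f39
  obtain ⟨c40, g40⟩ := X.lift1 f40
  obtain ⟨c41, g41⟩ := X.lift f41
  obtain ⟨c42, g42⟩ := X.lift f42
  obtain ⟨c43, g43⟩ := X.lift f43
  obtain ⟨c44, g44⟩ := X.lift f44
  obtain ⟨c45, g45⟩ := X.lift f45
  obtain ⟨c46, g46⟩ := X.lift f46
  obtain ⟨c47, g47⟩ := X.lift f47
  obtain ⟨c48, g48⟩ := X.lift f48
  obtain ⟨c49, g49⟩ := X.lift f49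
  obtain ⟨c50, g50⟩ := X.lift f50
  obtain ⟨c51, g51⟩ := X.lift f51
  obtain ⟨c52, g52⟩ := X.lift f52
  obtain ⟨c53, g53⟩ := X.lift f53
  obtain ⟨c54, g54⟩ := X.lift f54
  obtain ⟨c55, g55⟩ := X.lift f55
  obtain ⟨c56, g56⟩ := X.lift f56
  obtain ⟨c57, g57⟩ := X.lift f57
  obtain ⟨c58, g58⟩ := X.lift f58
  obtain ⟨c59, g59⟩ := X.lift f59
  obtain ⟨c60, g60⟩ := X.lift1 f60
  obtain ⟨c61, g61⟩ := X.lift1 f61
  obtain ⟨c62, g62⟩ := X.lift f62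
  obtain ⟨c63, g63⟩ := X.lift f63
  obtain ⟨c64, g64⟩ := X.lift f64
  have r0 := X.rel hL (X.one_r q8) (X.one_l q8) g16 g51 (X.one_r q9) g48 (X.one_l q16) (X.one_r q16) g17 (X.one_l q5)
  have r1 := X.rel hL (X.one_l L.one) g37 (X.one_l q24) g25 (X.one_r q8) (X.one_l q8) g17 (X.one_r q5) g24 g53
  have r2 := X.rel hL (X.one_l q33) (X.one_r q33) (X.one_l q24) (X.one_r q24) g40 (X.one_l L.one) (X.one_r q33) (X.one_l q33) (X.one_l L.one) g39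
  have r3 := X.rel hL g41 g33 g41 g33 g37 g39 g53 g24 g4 g37
  have r4 := X.rel hL g46 g21 g46 g21 g7 g40 g59 g20 g6 g7
  have r5 := X.rel hL (X.one_l L.one) g37 (X.one_l q1) g12 (X.one_r q4) (X.one_l q4) g34 (X.one_r q33) g41 g33
  have r6 := X.rel hL (X.one_l L.one) g7 (X.one_l q3) g43 (X.one_r q11) (X.one_l q11) g25 (X.one_r q24) g46 g21
  have r7 := X.rel hL (X.one_l L.one) g7 (X.one_l q33) g34 (X.one_r q16) (X.one_l q16) g48 (X.one_r q9) g20 g59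
  have r8 := X.rel hL (X.one_l q4) (X.one_r q4) (X.one_l q11) (X.one_r q11) g43 (X.one_l q3) g9 g2 (X.one_r q1) g12
  have r9 := X.rel hL g44 (X.one_r q4) g27 (X.one_r q26) g50 g28 g9 (X.one_l q7) (X.one_l L.one) g8
  have r10 := X.rel hL (X.one_l q8) (X.one_r q8) (X.one_l q27) (X.one_r q27) g63 (X.one_l q25) g54 g56 (X.one_r q31) g62
  have r11 := X.rel hL (X.one_r q26) g27 g55 g63 (X.one_r q27) g50 g44 (X.one_r q4) g8 g38
  have r12 := X.rel hL (X.one_l q2) g13 (X.one_l q7) g2 g0 (X.one_l q4) g13 (X.one_l q2) (X.one_l q4) g44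
  have r13 := X.rel hL g1 (X.one_l q4) (X.one_r q2) g13 g28 g35 (X.one_l q20) g21 g7 (X.one_l L.one)
  have r14 := X.rel hL (X.one_r q15) g51 g31 g56 (X.one_r q31) g32 g6 (X.one_l L.one) (X.one_l q8) g10
  have r15 := X.rel hL (X.one_r q6) g18 (X.one_r q6) g18 (X.one_r q8) g3 g16 (X.one_r q15) g49 (X.one_r q8)
  have r16 := X.rel hL (X.one_l q6) g18 (X.one_l L.one) g38 g26 (X.one_l q25) g54 g31 g49 (X.one_r q8)
  have r17 := X.rel hL (X.one_l L.one) g6 (X.one_l q20) g21 (X.one_r q8) (X.one_l q8) g51 (X.one_r q15) g32 g57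
  have r18 := X.rel hL (X.one_l q20) g21 (X.one_l q4) g1 g35 (X.one_l q27) g62 g57 g6 g7
  have r19 := X.rel hL (X.one_l L.one) g38 (X.one_l q6) g18 (X.one_r q8) (X.one_l q8) g27 (X.one_r q26) g55 g26
  have r20 := X.rel hL (X.one_l q2) (X.one_r q2) (X.one_l q10) (X.one_r q10) g42 (X.one_l q3) g1 g0 (X.one_r q1) g11
  have r21 := X.rel hL (X.one_r q6) (X.one_l q6) g3 g10 (X.one_r q9) g47 (X.one_l q14) (X.one_r q14) g15 (X.one_l q5)
  have r22 := X.rel hL (X.one_l L.one) g36 (X.one_l q22) g23 (X.one_r q6) (X.one_l q6) g15 (X.one_r q5) g22 g52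
  have r23 := X.rel hL (X.one_l q22) (X.one_r q22) (X.one_l q28) (X.one_r q28) g61 (X.one_l L.one) (X.one_r q22) (X.one_l q22) (X.one_l L.one) g60
  have r24 := X.rel hL g29 g14 g19 g45 g60 g5 g14 g29 g5 g6
  have r25 := X.rel hL g64 g30 g64 g30 g36 g61 g52 g22 g4 g36
  have r26 := X.rel hL (X.one_l L.one) g5 (X.one_l q3) g42 (X.one_r q10) (X.one_l q10) g23 (X.one_r q22) g45 g19
  have r27 := X.rel hL (X.one_l L.one) g36 (X.one_l q1) g11 (X.one_r q2) (X.one_l q2) g58 (X.one_r q28) g64 g30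
  have r28 := X.rel hL (X.one_l L.one) g5 (X.one_l q28) g58 (X.one_r q14) (X.one_l q14) g47 (X.one_r q9) g14 g29
  have key : (2 : ℤ) • c2 - (2 : ℤ) • c0 + (2 : ℤ) • c1 - (2 : ℤ) • c9 = 0 := by
    linear_combination (norm := module) r0 - r1 + r2 - r3 + r4 + r5 - r6 + r7 - r8 - r9 - r10 - r11 - r12 - r13 + r14 - r15 + r16 + r17 - r18 + r19 + r20 - r21 + r22 + r23 + r24 + r25 + r26 - r27 - r28
  have k1 : c0 = c1 := X.sm_inj (by rw [← g0, ← g1, h])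
  refine ⟨c2 - c9, ?_, ?_⟩
  · rw [k1] at key
    linear_combination (norm := module) key
  · rw [g0, g1, X.mul_sm, X.sm_mul, g2, g9, ← X.sm_add, ← X.sm_add, ← X.sm_add, k1]
    congr 1; abel

end LoopStr

end Pool.Agent.V7H71.UF
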