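import Pool.Agent.V7H71.UF.E1

/-!
# Middle Bol quotients: isotopes and the lifting theorem
-/

namespace Pool.Agent.V7H71.UF

universe u

namespace LoopStr

variable {Q : Type*}

/-- The principal isotope of `L` at `(a, b)`, with identity `a b`. -/
def isoLoop (L : LoopStr Q) (a b : Q) : LoopStr Q where
  mul := L.iso a b
  ldiv x y := L.mul a (L.ldiv (L.rdiv x b) y)
  rdiv y x := L.mul (L.rdiv y (L.ldiv a x)) b
  one := L.mul a b
  mul_ldiv x y := by simp only [iso, L.ldiv_mul, L.mul_ldiv]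
  ldiv_mul x y := by simp only [iso, L.ldiv_mul, L.mul_ldiv]
  rdiv_mul x y := by simp only [iso, L.mul_rdiv, L.rdiv_mul]
  mul_rdiv x y := by simp only [iso, L.mul_rdiv, L.rdiv_mul]
  one_mul x := by simp only [iso, L.mul_rdiv, L.mul_ldiv]
  mul_one x := by simp only [iso, L.ldiv_mul, L.rdiv_mul]

variable {L : LoopStr Q}

theorem isoLoop_UF (h : L.UF) (a b : Q) : (L.isoLoop a b).UF := by
  intro c d x y
  have key : ∀ x y, (L.isoLoop a b).iso c d x y = L.iso (L.rdiv c b) (L.ldiv a d) x y := by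
    intro x y
    show L.mul (L.rdiv (L.mul (L.rdiv x (L.ldiv a d)) b) b)
      (L.ldiv a (L.mul a (L.ldiv (L.rdiv c b) y))) = _
    rw [L.mul_rdiv, L.ldiv_mul]
    rfl
  simp only [key]
  exact h _ _ _ _

theorem isoLoop_MB (h : L.MiddleBol) (a b : Q) : (L.isoLoop a b).MiddleBol := by
  intro x y z
  show L.mul (L.rdiv x b) (L.ldiv a (L.mul a (L.ldiv (L.rdiv (L.mul (L.rdiv y b) (L.ldiv a z)) b)
      x))) = L.mul (L.rdiv (L.mul (L.rdiv x (L.ldiv a z)) b) b)
      (L.ldiv a (L.mul a (L.ldiv (L.rdiv y b) x)))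
  rw [L.ldiv_mul, L.ldiv_mul, L.mul_rdiv, ← h, ← h, L.rdiv_mul]

namespace Ext

variable {N A : Type*} [AddCommGroup A] {M : LoopStr N} (X : Ext L M A)

theorem pr_ldiv (x y : Q) : M.ldiv (X.pr x) (X.pr y) = X.pr (L.ldiv x y) :=
  ldiv_eq (by rw [X.pr_mul, L.mul_ldiv])

theorem pr_rdiv (x y : Q) : M.rdiv (X.pr y) (X.pr x) = X.pr (L.rdiv y x) :=
  rdiv_eq (by rw [X.pr_mul, L.rdiv_mul])

/-- The extension of principal isotopes. -/
def isoExt (a b : Q) : Ext (L.isoLoop a b) (M.isoLoop (X.pr a) (X.pr b)) A where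
  pr := X.pr
  sm := X.sm
  surj := X.surj
  sm_zero := X.sm_zero
  sm_add := X.sm_add
  mul_sm x y c := by
    show L.mul (L.rdiv x b) (L.ldiv a (X.sm y c)) = X.sm (L.mul (L.rdiv x b) (L.ldiv a y)) c
    have : L.ldiv a (X.sm y c) = X.sm (L.ldiv a y) c :=
      ldiv_eq (by rw [X.mul_sm, L.mul_ldiv])
    rw [this, X.mul_sm]
  sm_mul x y c := by
    show L.mul (L.rdiv (X.sm x c) b) (L.ldiv a y) = X.sm (L.mul (L.rdiv x b) (L.ldiv a y)) c
    have : L.rdiv (X.sm x c) b = X.sm (L.rdiv x b) c :=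
      rdiv_eq (by rw [X.sm_mul, L.rdiv_mul])
    rw [this, X.sm_mul]
  sm_inj := X.sm_inj
  pr_mul x y := by
    show M.mul (M.rdiv (X.pr x) (X.pr b)) (M.ldiv (X.pr a) (X.pr y)) =
      X.pr (L.mul (L.rdiv x b) (L.ldiv a y))
    rw [X.pr_rdiv, X.pr_ldiv, X.pr_mul]
  pr_eq := X.pr_eq

include X in
/-- A UF central extension of a middle Bol loop by a group without involutions is middle Bol. -/
theorem middleBol (hL : L.UF) (hM : M.UF) (hB : M.MiddleBol)
    (h2 : ∀ d : A, d + d = 0 → d = 0) : L.MiddleBol := by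
  intro x y z
  let L' := L.isoLoop y L.one
  have h1 : ∀ t, L.rdiv t L.one = t := fun t => rdiv_eq (L.mul_one t)
  have e1 : L'.mul (L.rdiv x z) (L.mul y z) = x := by
    show L.mul (L.rdiv (L.rdiv x z) L.one) (L.ldiv y (L.mul y z)) = x
    rw [h1, L.ldiv_mul, L.rdiv_mul]
  have e2 : L'.mul (L.mul y z) (L.mul y (L.ldiv (L.mul y z) x)) = x := by
    show L.mul (L.rdiv (L.mul y z) L.one) (L.ldiv y (L.mul y (L.ldiv (L.mul y z) x))) = x
    rw [h1, L.ldiv_mul, L.mul_ldiv]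
  obtain ⟨d, hd, e⟩ := e1_double (X.isoExt y L.one) (isoLoop_UF hL _ _) (isoLoop_UF hM _ _)
    (isoLoop_MB hB _ _) (e1.trans e2.symm)
  rw [h2 d hd] at e
  have e' : L'.mul (L.rdiv x z) (L'.mul (L.rdiv x z) (L.mul y z)) =
      L'.mul (L'.mul (L.mul y z) (L.mul y (L.ldiv (L.mul y z) x)))
        (L.mul y (L.ldiv (L.mul y z) x)) := e.trans (X.sm_zero _)
  rw [e1, e2] at e'
  have e'' : L.mul (L.rdiv (L.rdiv x z) L.one) (L.ldiv y x) =
      L.mul (L.rdiv x L.one) (L.ldiv y (L.mul y (L.ldiv (L.mul y z) x))) := e'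
  rw [h1, h1, L.ldiv_mul] at e''
  exact e''.symm

end Ext

theorem flex (h : L.UF) (p s : Q) : L.mul p (L.mul s p) = L.mul (L.mul p s) p := by
  have := U1 h (a := L.one) (b := L.one) (u := p) (w := p) (v := s) (s := L.mul p s) (t := s)
    (r := L.mul s p) (by rw [L.one_mul, L.mul_one]) (by rw [L.one_mul, L.mul_one])
    (by rw [L.mul_one]) (by rw [L.one_mul])
  exact this

theorem MiddleBol.inv_mul_rev (h : L.MiddleBol) (y z : Q) :
    L.inv (L.mul y z) = L.mul (L.inv z) (L.inv y) := by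
  have h0 : ∀ y z, L.inv (L.mul y z) = L.mul (L.rdiv L.one z) (L.inv y) := fun y z => by
    have := h L.one y z
    rw [L.one_mul] at this
    exact this
  have h1 : ∀ z, L.inv z = L.rdiv L.one z := fun z => by
    have := h0 L.one z
    rw [L.one_mul] at this
    rw [this]
    have h2 : L.inv L.one = L.one := ldiv_eq (L.mul_one _)
    rw [h2, L.mul_one]
  rw [h0, h1 z]

/-- A middle Bol UF loop has the SAIP. -/
theorem MiddleBol.saip (hB : L.MiddleBol) (h : L.UF) : L.SAIP := by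
  intro x y
  rw [hB.inv_mul_rev, hB.inv_mul_rev x y, flex h]

/-- `CNil n Q L`: the loop `L` is centrally nilpotent of class at most `n` and none of the loops
`L`, `L / Z(L)`, `(L / Z(L)) / Z(L / Z(L))`, ... has a central element of order `2`. -/
def CNil : ℕ → (Q : Type u) → LoopStr Q → Prop
  | 0, Q, _ => Subsingleton Q
  | n + 1, _, L => (∀ c, L.Central c → L.mul c c = L.one → c = L.one) ∧ CNil n L.Quot L.quot

theorem CNil.middleBol : ∀ (n : ℕ) (Q : Type u) (L : LoopStr Q), CNil n Q L → L.UF → L.MiddleBol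
  | 0, Q, L, h, _ => fun _ _ _ => @Subsingleton.elim Q h _ _
  | n + 1, Q, L, h, hL => by
    refine (centerExt L).middleBol hL (quot_UF hL) (CNil.middleBol n _ _ h.2 (quot_UF hL)) ?_
    intro d hd
    exact Subtype.ext (h.1 d.1 d.2 (congrArg Subtype.val hd))

end LoopStr

end Pool.Agent.V7H71.UF
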